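import Mathlib
import Pool.Agent.Helper93.Bq.GP
import Pool.Agent.Y699.Pos

/-!
# Beilinson's conjecture on ranks for a positive proportion of the quadratic twists of
# `y² = x³ - x` over `ℚ(i)`, over infinite multiquadratic towers

Here `i = 0` and `X = E_D : y² = x³ - D² x`, the quadratic twist of `y² = x³ - x` by the Gaussian
integer `D`, so that `CH¹(X)_0` is `E_D(F)`; both sides of the conjecture will be `0`.

`D` runs through the primary squarefree Gaussian integers; `M` is a finite set of primary primes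
`l ∤ D` with norms `≡ 1` modulo `8`, and `F = ℚ(i)(√l : l ∈ M)`, a field of degree `2 ^ (#M + 1)`.

* `M = ∅`: a positive proportion of all `D`, ordered by the norm, has norm `≡ 5` modulo `8` and no
  splitting (`D = d d'` with `d'` a square modulo the primes of `d` and vice versa).
* If all the products `D ∏_{l ∈ T} l`, `T ⊆ M`, have no splitting, then `L(E_D/F, s)` is entire,
  `L(E_D/F, 1) ≠ 0` and `E_D(F)` is finite for `F = ℚ(i)(√l : l ∈ M)`.
* In this case a positive proportion of the Gaussian primes `l` can be added to `M`.  So for each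
  of the `D` of the first part there are infinite multiquadratic towers (in fact trees of them which
  branch at a positive proportion of the primes) of number fields over which Beilinson's
  conjecture is true for `E_D`.

The `L`-functions are the Euler products over the places of `F` not dividing `2 D ∏_{l ∈ M} l`; the
factors at the finitely many other places are finite and not zero at `s = 1`, so the order of
vanishing at `s = 1` is the same.

The case `M = ∅` is the theorem of the starting file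
`MP_1a91b9_nt/PositiveProportionGaussianTwists` (library `Pool/Agent/Y699`).  New here: the Euler product and
the finiteness of the group of points over a quadratic extension for any curve `y² = x³ + a x + b` over a
number field (`Pool/Agent/Helper93/Bq`, with the number of points over a finite field from
`Pool/Agent/W165/CE`), the induction over multiquadratic fields, places of a number field with prescribed
quadratic residue symbols (from Chebotarev's theorem, `Pool/Agent/K3h73`), and the argument for `D l`.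
-/

set_option autoImplicit false

namespace Pool.Agent.Results.MP_6dc9d1_nt.GaussianMultiquadraticTowers

open NumberField IsDedekindDomain Filter

/-- `z ≡ 1` modulo `2 + 2i`. -/
def Primary (z : GaussianInt) : Prop := (⟨2, 2⟩ : GaussianInt) ∣ z - 1

/-- `D` is primary, squarefree, and its norm is `5` modulo `8`. -/
def InClass (D : GaussianInt) : Prop := Primary D ∧ Squarefree D ∧ D.norm % 8 = 5

/-- In every factorization of `N` in primary factors `d`, `d'` for which `d'` is a square modulo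
the primes dividing `d` and `d` is a square modulo the primes dividing `d'`, one factor is `1`. -/
def HasNoSplitting (N : GaussianInt) : Prop :=
  ∀ d d' : GaussianInt, Primary d → Primary d' → N = d * d' →
    (∀ p : GaussianInt, Prime p → p ∣ d → ∃ x, p ∣ d' - x ^ 2) →
    (∀ p : GaussianInt, Prime p → p ∣ d' → ∃ x, p ∣ d - x ^ 2) → d = 1 ∨ d' = 1

/-- `l` is a primary Gaussian prime, its norm is `1` modulo `8`, and it does not divide `D`. -/
def Admissible (D l : GaussianInt) : Prop := Prime l ∧ Primary l ∧ l.norm % 8 = 1 ∧ ¬ l ∣ D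

/-- All the `2 ^ #M` numbers `D ∏_{l ∈ T} l`, `T ⊆ M`, have no splitting. -/
def Good (M : Finset GaussianInt) (D : GaussianInt) : Prop :=
  ∀ T ⊆ M, HasNoSplitting (D * ∏ l ∈ T, l)

/-- `F = K(√l : l ∈ M)`. -/
def Generated (M : Finset GaussianInt) {K : Type} [Field K] [NumberField K]
    (e : GaussianInt ≃+* 𝓞 K) (F : Type) [Field F] [Algebra K F] : Prop :=
  ∃ r : GaussianInt → F, (∀ l ∈ M, r l ^ 2 = algebraMap K F (e l : K)) ∧
    ∀ E : IntermediateField K F, (∀ l ∈ M, r l ∈ E) → E = ⊤

/-- The curve `y² = x³ - D² x`. -/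
def curve (F : Type) [Field F] (D : F) : WeierstrassCurve F := ⟨0, 0, 0, -D ^ 2, 0⟩

section
variable {F : Type} [Field F] [NumberField F]

/-- `a_v`: `Nv` minus the number of the pairs `(x, y)` modulo `v` with `y² = x³ - D² x`. -/
noncomputable def av (D : 𝓞 F) (v : HeightOneSpectrum (𝓞 F)) : ℤ :=
  ((Ideal.absNorm v.asIdeal : ℕ) : ℤ) - ((Nat.card {x : (𝓞 F ⧸ v.asIdeal) × (𝓞 F ⧸ v.asIdeal) //
    x.2 ^ 2 = x.1 ^ 3 - (Ideal.Quotient.mk v.asIdeal D) ^ 2 * x.1} : ℕ) : ℤ)

/-- `L` is entire and equal for `Re s > 3/2` to the Euler product of `L(E_D/F, s)` over the places of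
`F` that do not divide `B`. -/
def IsLFunction (D B : 𝓞 F) (L : ℂ → ℂ) : Prop :=
  Differentiable ℂ L ∧ ∀ s : ℂ, 3 / 2 < s.re →
    HasProd (fun v : {v : HeightOneSpectrum (𝓞 F) // B ∉ v.asIdeal} =>
      (1 - (av D v.1 : ℂ) * (Ideal.absNorm v.1.asIdeal : ℂ) ^ (-s) +
        (Ideal.absNorm v.1.asIdeal : ℂ) ^ (1 - 2 * s))⁻¹) (L s)

/-- `E_D(F)` is finite, and `L(E_D/F, s)`, without the factors at the places dividing `B`, is entire and
not zero at `s = 1`. -/
def RankZero (D B : 𝓞 F) : Prop :=
  Finite (curve F (D : F)).toAffine.Point ∧ ∃ L : ℂ → ℂ, IsLFunction D B L ∧ L 1 ≠ 0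

end

section proof

open H385 (ZI)
open Pool.Agent.Y699 (PP PS PD mem_PD qr exists_PP odd_of_dvd PS_prod)
open Pool.Agent.Helper93.Bq (AG HasL)

lemma primary_iff (z : GaussianInt) : Primary z ↔ Pool.Agent.H304R2.EC.A1.prim z :=
  (Pool.Agent.W164.RC.prim_iff_dvd z).symm

lemma good_iff {D : GaussianInt} (hD : InClass D) :
    HasNoSplitting D ↔ Pool.Agent.Y699.Good D := by
  obtain ⟨h1, h2, h3⟩ := hD
  rw [primary_iff] at h1
  have hps : PS D := ⟨h1, h2⟩
  have hodd := Pool.Agent.H304R2.EC.A1.prim_norm_odd h1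
  have aux1 : ∀ d d' : GaussianInt, D = d * d' → (∀ π ∈ PD d, qr π d' = 1) →
      ∀ p : GaussianInt, Prime p → p ∣ d → ∃ x, p ∣ d' - x ^ 2 := by
    intro d d' he hq p hp hpd
    have hd0 : d ≠ 0 := by rintro rfl; exact hps.ne (by rw [he, zero_mul])
    have hpo : p.norm % 2 = 1 := odd_of_dvd (hpd.trans ⟨d', he⟩) hodd
    obtain ⟨π, hπ, hass⟩ := exists_PP hp hpo
    have h4 := hq π ((mem_PD hd0).2 ⟨hπ, hass.dvd.trans hpd⟩)
    by_cases h6 : ∃ b, π ∣ d' - b ^ 2
    · obtain ⟨b, hb⟩ := h6
      exact ⟨b, hass.symm.dvd.trans hb⟩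
    · unfold qr at h4
      rw [if_neg h6] at h4
      split_ifs at h4
      exact absurd h4 (by norm_num)
  have aux2 : ∀ d d' : GaussianInt, D = d * d' →
      (∀ p : GaussianInt, Prime p → p ∣ d → ∃ x, p ∣ d' - x ^ 2) → ∀ π ∈ PD d, qr π d' = 1 := by
    intro d d' he hq π hπ
    have hd0 : d ≠ 0 := by rintro rfl; exact hps.ne (by rw [he, zero_mul])
    rw [mem_PD hd0] at hπ
    have h4 : ¬ π ∣ d' := by
      intro h5
      exact hπ.1.pr.not_isUnit (h2 π (by rw [he]; exact mul_dvd_mul hπ.2 h5))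
    unfold qr
    rw [if_neg h4, if_pos (hq π hπ.1.pr hπ.2)]
  constructor
  · intro h
    refine ⟨hps, h3, fun d d' hd hd' he hq hq' => ?_⟩
    exact h d d' ((primary_iff d).2 hd) ((primary_iff d').2 hd') he (aux1 d d' he hq)
      (aux1 d' d (by rw [he, mul_comm]) hq')
  · intro h d d' hd hd' he hq hq'
    exact h.ker d d' ((primary_iff d).1 hd) ((primary_iff d').1 hd') he (aux2 d d' he hq)
      (aux2 d' d (by rw [he, mul_comm]) hq')

lemma adm_pp {D l : GaussianInt} (h : Admissible D l) : PP l := ⟨h.1, (primary_iff l).1 h.2.1⟩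

lemma inClass_mul {D : GaussianInt} (hD : InClass D) {M : Finset GaussianInt}
    (hM : ∀ l ∈ M, Admissible D l) : InClass (D * ∏ l ∈ M, l) := by
  have hPS := PS_prod (S := M) (fun l hl => adm_pp (hM l hl))
  have h1 : Pool.Agent.H304R2.EC.A1.prim D := (primary_iff D).1 hD.1
  have hcop : IsCoprime D (∏ l ∈ M, l) := by
    apply IsCoprime.prod_right
    intro l hl
    exact (((hM l hl).1.irreducible.coprime_iff_not_dvd).2 (hM l hl).2.2.2).symm
  have hps := (PS.mul_iff h1 hPS.1.prm).2 ⟨⟨h1, hD.2.1⟩, hPS.1, hcop⟩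
  refine ⟨(primary_iff _).2 hps.prm, hps.sqf, ?_⟩
  have h8 : (∏ l ∈ M, l).norm % 8 = 1 := by
    clear hcop hps hPS
    induction M using Finset.induction_on with
    | empty => decide
    | insert a s ha ih =>
      rw [Finset.prod_insert ha, Zsqrtd.norm_mul, Int.mul_emod,
        ih (fun l hl => hM l (Finset.mem_insert_of_mem hl)), (hM a (Finset.mem_insert_self _ _)).2.2.1]
      norm_num
  rw [Zsqrtd.norm_mul, Int.mul_emod, hD.2.2, h8]
  norm_num

lemma ag_iff {D : GaussianInt} (hD : InClass D) {M : Finset GaussianInt}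
    (hM : ∀ l ∈ M, Admissible D l) : Good M D ↔ AG M D :=
  forall₂_congr fun _ hT => good_iff (inClass_mul hD fun l hl => hM l (hT hl))

lemma many {D : GaussianInt} (hD : InClass D) {M : Finset GaussianInt}
    (hM : ∀ l ∈ M, Admissible D l) (hG : AG M D) :
    ∃ c : ℝ, 0 < c ∧ ∀ᶠ X : ℕ in atTop, c * (Nat.primeCounting X : ℝ) ≤
      (Set.ncard {l : GaussianInt | Admissible D l ∧ l ∉ M ∧ Good (insert l M) D ∧ l.norm ≤ X} : ℝ) := by
  classical
  have hps : PS D := ⟨(primary_iff D).1 hD.1, hD.2.1⟩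
  have hne : (PD D).Nonempty := by
    rw [Finset.nonempty_iff_ne_empty]
    intro h0
    have h1 := hps.prod
    rw [h0, Finset.prod_empty] at h1
    have h2 := hD.2.2
    rw [← h1] at h2
    exact absurd h2 (by decide)
  obtain ⟨p, hp⟩ := hne
  have hPP : ∀ π ∈ PD D ∪ M, PP π := by
    intro π hπ
    rcases Finset.mem_union.1 hπ with h | h
    · exact ((mem_PD hps.ne).1 h).1
    · exact adm_pp (hM π h)
  obtain ⟨c, hc, h1⟩ := Pool.Agent.Helper93.Bq.primes hPP ((PD D ∪ M).erase p)
  refine ⟨c, hc, ?_⟩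
  filter_upwards [h1] with X hX
  refine hX.trans ?_
  have hfin : {l : GaussianInt | Admissible D l ∧ l ∉ M ∧ Good (insert l M) D ∧ l.norm ≤ X}.Finite := by
    refine (Pool.Agent.Y699.fin_norm_le X).subset ?_
    rintro l ⟨-, -, -, h⟩
    have h0 := GaussianInt.norm_nonneg l
    show l.norm.natAbs ≤ X
    omega
  refine Nat.cast_le.2 (Set.ncard_le_ncard ?_ hfin)
  rintro l ⟨⟨hl, h8, hq⟩, hlX⟩
  have hself : qr l l = 0 := Pool.Agent.Y699.qr_zero_iff.2 dvd_rfl
  have hnot : l ∉ PD D ∪ M := by
    intro h2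
    have h3 := hq l h2
    rw [hself] at h3
    split_ifs at h3
    all_goals exact absurd h3 (by norm_num)
  have hlD : ¬ l ∣ D := fun h2 => hnot (Finset.mem_union_left _ ((mem_PD hps.ne).2 ⟨hl, h2⟩))
  have hlM : l ∉ M := fun h2 => hnot (Finset.mem_union_right _ h2)
  have hadm : Admissible D l := ⟨hl.pr, (primary_iff l).2 hl.prm, h8, hlD⟩
  have hpU : p ∈ PD D ∪ M := Finset.mem_union_left _ hp
  refine ⟨hadm, hlM, ?_, hlX⟩
  rw [ag_iff hD (by
    intro x hx
    rcases Finset.mem_insert.1 hx with rfl | hx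
    · exact hadm
    · exact hM x hx)]
  refine hG.insert (fun π hπ => adm_pp (hM π hπ)) hl hlD hlM h8 hp ?_ ?_
  · rw [hq p hpU, if_neg (Finset.notMem_erase _ _)]
  · intro π hπ hne
    rw [hq π hπ, if_pos (Finset.mem_erase.2 ⟨hne, hπ⟩)]

lemma av_eq {F : Type} [Field F] [NumberField F] (D : 𝓞 F) (v : HeightOneSpectrum (𝓞 F)) :
    av D v = Pool.Agent.Helper93.Bq.ap (-D ^ 2) 0 v := by
  unfold av Pool.Agent.Helper93.Bq.ap Pool.Agent.Helper93.Bq.cnt
  congr 2
  apply Nat.card_congr
  refine Equiv.subtypeEquivRight fun x => ?_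
  rw [map_zero, map_neg, map_pow, add_zero, neg_mul, ← sub_eq_add_neg]

lemma fields {D : GaussianInt} (hD : InClass D) {M : Finset GaussianInt}
    (hM : ∀ l ∈ M, Admissible D l) (hG : AG M D) {K : Type} [Field K] [NumberField K]
    (e : GaussianInt ≃+* 𝓞 K) :
    (∃ (F : Type) (_ : Field F) (_ : NumberField F) (_ : Algebra K F), Generated M e F) ∧
      ∀ (F : Type) [Field F] [NumberField F] [Algebra K F], Generated M e F →
        Module.finrank K F = 2 ^ M.card ∧
        RankZero (algebraMap (𝓞 K) (𝓞 F) (e D)) (algebraMap (𝓞 K) (𝓞 F) (e (2 * D * ∏ l ∈ M, l))) := by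
  classical
  have hind : Pool.Agent.Helper93.Bq.Indep (M.image e) := by
    have h1 := Pool.Agent.Helper93.Bq.indep (K := K) (M := M) (fun π hπ => adm_pp (hM π hπ)) e
    exact fun T hT hne => h1 T (hT.trans (Finset.image_subset_image (Finset.subset_insert _ _))) hne
  refine ⟨?_, ?_⟩
  · obtain ⟨r, hr⟩ := Pool.Agent.Helper93.Bq.exists_gen (M.image e)
    refine ⟨(Pool.Agent.Helper93.Bq.pS (M.image e)).SplittingField, inferInstance, inferInstance,
      inferInstance, fun l => (r (e l) : (Pool.Agent.Helper93.Bq.pS (M.image e)).SplittingField),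
      ?_, ?_⟩
    · intro l hl
      have h1 := congrArg (algebraMap (𝓞 (Pool.Agent.Helper93.Bq.pS (M.image e)).SplittingField)
        (Pool.Agent.Helper93.Bq.pS (M.image e)).SplittingField)
        (hr.sq (e l) (Finset.mem_image_of_mem _ hl))
      rw [map_pow] at h1
      rw [h1]
      rfl
    · intro E hE
      refine hr.gen E fun d hd => ?_
      obtain ⟨l, hl, rfl⟩ := Finset.mem_image.1 hd
      exact hE l hl
  · intro F _ _ _ hF
    obtain ⟨r, hr, hgen⟩ := hF
    -- integral square roots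
    have hex : ∀ d : 𝓞 K, ∃ y : 𝓞 F, d ∈ M.image e → (y : F) = r (e.symm d) := by
      intro d
      by_cases hd : d ∈ M.image e
      · obtain ⟨l, hl, rfl⟩ := Finset.mem_image.1 hd
        have hint : IsIntegral ℤ (r l) := by
          have h3 : IsIntegral ℤ (r l ^ 2) := by
            rw [hr l hl]
            exact ((e l).isIntegral_coe).map (algebraMap K F).toIntAlgHom
          exact h3.of_pow (by norm_num)
        exact ⟨⟨r l, hint⟩, fun _ => by rw [RingEquiv.symm_apply_apply]; rfl⟩
      · exact ⟨0, fun h => absurd h hd⟩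
    choose r' hr' using hex
    have hG' : Pool.Agent.Helper93.Bq.Gen (M.image e) F r' := by
      refine ⟨fun d hd => ?_, fun E hE => hgen E fun l hl => ?_⟩
      · apply RingOfIntegers.ext
        have h1 := hr' d hd
        obtain ⟨l, hl, rfl⟩ := Finset.mem_image.1 hd
        have h2 : ((r' (e l) ^ 2 : 𝓞 F) : F) = (r' (e l) : F) ^ 2 := rfl
        rw [h2, h1, RingEquiv.symm_apply_apply, hr l hl]
        rfl
      · have h1 := hE (e l) (Finset.mem_image_of_mem _ hl)
        rw [hr' (e l) (Finset.mem_image_of_mem _ hl), RingEquiv.symm_apply_apply] at h1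
        exact h1
    have hD0 : D ≠ 0 := hD.2.1.ne_zero
    have hM0 : ∏ l ∈ M, l ≠ 0 := Finset.prod_ne_zero_iff.2 fun l hl => (hM l hl).1.ne_zero
    have h20 : (2 : GaussianInt) ≠ 0 := by decide
    set B : 𝓞 K := e (2 * D * ∏ l ∈ M, l) with hB
    have hB0 : B ≠ 0 := by
      rw [hB, Ne, map_eq_zero_iff _ e.injective]
      exact mul_ne_zero (mul_ne_zero h20 hD0) hM0
    have hdv : ∀ z : GaussianInt, z ∣ 2 * D * ∏ l ∈ M, l → ∀ v : HeightOneSpectrum (𝓞 K),
        B ∉ v.asIdeal → e z ∉ v.asIdeal := fun z hz v hv =>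
      Pool.Agent.Helper93.Bq.not_mem_of_dvd (map_dvd e hz) hv
    have hB2 : ∀ v : HeightOneSpectrum (𝓞 K), B ∉ v.asIdeal → (2 : 𝓞 K) ∉ v.asIdeal := by
      intro v hv
      have h1 := hdv 2 ((dvd_mul_right _ _).mul_right _) v hv
      rwa [map_ofNat] at h1
    obtain ⟨-, t2, t3, t4⟩ := Pool.Agent.Helper93.Bq.tower B hB2 (M.image e) (fun d hd v hv => by
      obtain ⟨l, hl, rfl⟩ := Finset.mem_image.1 hd
      exact hdv l ((Finset.dvd_prod_of_mem _ hl).mul_left _) v hv) hind F r' hG'
    rw [Finset.card_image_of_injective _ e.injective] at t2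
    refine ⟨t2, ?_, ?_⟩
    · -- the points
      have h1 := t4 (-((e D : 𝓞 K) : K) ^ 2) 0 (by
        have h2 : ((e D : 𝓞 K) : K) ≠ 0 := by
          rw [Ne, RingOfIntegers.coe_eq_zero_iff, map_eq_zero_iff _ e.injective]
          exact hD0
        have e1 : 4 * (-((e D : 𝓞 K) : K) ^ 2) ^ 3 + 27 * 0 ^ 2 = -4 * ((e D : 𝓞 K) : K) ^ 6 := by ring
        rw [e1]
        exact mul_ne_zero (by norm_num) (pow_ne_zero _ h2)) (by
        intro T hT
        obtain ⟨U, hU, rfl⟩ := Finset.subset_image_iff.1 hT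
        have h2 := Pool.Agent.Helper93.Bq.sol_gauss (hG U hU) e
        have e1 : (∏ d ∈ U.image e, d : 𝓞 K) = e (∏ l ∈ U, l) := by
          rw [Finset.prod_image (fun a _ b _ h => e.injective h), ← map_prod]
        rw [e1, mul_zero]
        have e2 : ((e (∏ l ∈ U, l) : 𝓞 K) : K) ^ 2 * -((e D : 𝓞 K) : K) ^ 2 =
            -((e (D * ∏ l ∈ U, l) : 𝓞 K) : K) ^ 2 := by
          have e3 : ((e (D * ∏ l ∈ U, l) : 𝓞 K) : K) =
              ((e D : 𝓞 K) : K) * ((e (∏ l ∈ U, l) : 𝓞 K) : K) := by
            rw [map_mul]; rfl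
          rw [e3]
          ring
        rw [e2]
        exact h2)
      have hDF : ((algebraMap (𝓞 K) (𝓞 F) (e D) : 𝓞 F) : F) ≠ 0 := by
        rw [Ne, RingOfIntegers.coe_eq_zero_iff, map_eq_zero_iff _
          (FaithfulSMul.algebraMap_injective (𝓞 K) (𝓞 F)), map_eq_zero_iff _ e.injective]
        exact hD0
      have h3 : (curve F ((algebraMap (𝓞 K) (𝓞 F) (e D) : 𝓞 F) : F)) =
          Pool.Agent.Helper93.Bq.crv F (-((algebraMap (𝓞 K) (𝓞 F) (e D) : 𝓞 F) : F) ^ 2) 0 := rfl
      rw [h3, Pool.Agent.Helper93.Bq.finite_iff two_ne_zero]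
      · rw [map_zero, map_neg, map_pow] at h1
        exact h1
      · have e1 : 4 * (-((algebraMap (𝓞 K) (𝓞 F) (e D) : 𝓞 F) : F) ^ 2) ^ 3 + 27 * 0 ^ 2 =
            -4 * ((algebraMap (𝓞 K) (𝓞 F) (e D) : 𝓞 F) : F) ^ 6 := by ring
        rw [e1]
        exact mul_ne_zero (by norm_num) (pow_ne_zero _ hDF)
    · -- the `L`-function
      obtain ⟨L, h1, h2, h3⟩ := t3 (-(e D) ^ 2) 0 (by
        intro v hv
        have e1 : 4 * (-(e D) ^ 2) ^ 3 + 27 * 0 ^ 2 = -(2 ^ 2 * (e D) ^ 6) := by ring
        rw [e1, neg_mem_iff]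
        intro h2
        rcases v.isPrime.mem_or_mem h2 with h3 | h3
        · exact hB2 v hv (v.isPrime.mem_of_pow_mem _ h3)
        · exact hdv D ((dvd_mul_left _ _).mul_right _) v hv (v.isPrime.mem_of_pow_mem _ h3)) (by
        intro T hT
        obtain ⟨U, hU, rfl⟩ := Finset.subset_image_iff.1 hT
        have e1 : (∏ d ∈ U.image e, d : 𝓞 K) = e (∏ l ∈ U, l) := by
          rw [Finset.prod_image (fun a _ b _ h => e.injective h), ← map_prod]
        have h2 := Pool.Agent.Helper93.Bq.hasL_gauss (hG U hU) e hB0 hB2 (by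
          intro v hv
          rw [map_mul]
          intro h3
          rcases v.isPrime.mem_or_mem h3 with h4 | h4
          · exact hdv D ((dvd_mul_left _ _).mul_right _) v hv h4
          · exact hdv _ ((Finset.prod_dvd_prod_of_subset U M _ hU).mul_left _) v hv h4)
        rw [e1, mul_zero]
        have e2 : (e (∏ l ∈ U, l)) ^ 2 * -(e D) ^ 2 = -(e (D * ∏ l ∈ U, l)) ^ 2 := by
          rw [map_mul]
          ring
        rw [e2]
        exact h2)
      refine ⟨L, ⟨h1, fun s hs => ?_⟩, h2⟩
      have h4 := h3 s hs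
      refine h4.congr_fun fun v => ?_
      unfold Pool.Agent.Helper93.Bq.ef
      rw [av_eq, map_zero, map_neg, map_pow]

end proof

/-- **Main theorem.**  (1) At least `c X`, `c > 0`, of the primary squarefree Gaussian integers `D` of
norm at most `X` have norm `≡ 5` modulo `8` and no splitting.  (2) Let `D` be in the class and `M` a
finite set of admissible primes that is good for `D` (for `M = ∅` this means that `D` has no splitting).
Then at least `c π(X)`, `c > 0`, of the admissible primes `l` of norm at most `X` have the property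
that `M ∪ {l}` is good for `D`; and for all fields `F = ℚ(i)(√l : l ∈ M)` (they exist and have
degree `2 ^ #M` over `ℚ(i)`; `K` is `ℚ(i)`) `E_D(F)` is finite and `L(E_D/F, s)`, without the
factors at the places dividing `2 D ∏ l`, is entire and not zero at `s = 1`. -/
theorem result :
    (∃ c : ℝ, 0 < c ∧ ∃ X₀ : ℕ, ∀ X : ℕ, X₀ ≤ X →
      c * X ≤ (Set.ncard {D : GaussianInt | InClass D ∧ HasNoSplitting D ∧ D.norm ≤ X} : ℝ)) ∧
    ∀ (D : GaussianInt) (M : Finset GaussianInt), InClass D → (∀ l ∈ M, Admissible D l) →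
      Good M D →
      (∃ c : ℝ, 0 < c ∧ ∀ᶠ X : ℕ in atTop, c * (Nat.primeCounting X : ℝ) ≤
        (Set.ncard {l : GaussianInt |
          Admissible D l ∧ l ∉ M ∧ Good (insert l M) D ∧ l.norm ≤ X} : ℝ)) ∧
      ∀ (K : Type) [Field K] [NumberField K] (e : GaussianInt ≃+* 𝓞 K),
        (∃ (F : Type) (_ : Field F) (_ : NumberField F) (_ : Algebra K F), Generated M e F) ∧
        ∀ (F : Type) [Field F] [NumberField F] [Algebra K F], Generated M e F →
          Module.finrank K F = 2 ^ M.card ∧
          RankZero (algebraMap (𝓞 K) (𝓞 F) (e D))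
            (algebraMap (𝓞 K) (𝓞 F) (e (2 * D * ∏ l ∈ M, l))) := by
  refine ⟨?_, fun D M hD hM hG => ?_⟩
  · obtain ⟨c, hc, X₀, h⟩ := Pool.Agent.Y699.positive
    refine ⟨c, hc, X₀, fun X hX => (h X hX).trans ?_⟩
    have hfin : {D : GaussianInt | InClass D ∧ HasNoSplitting D ∧ D.norm ≤ X}.Finite := by
      refine (Pool.Agent.Y699.fin_norm_le X).subset ?_
      rintro D ⟨-, -, h⟩
      have h0 := GaussianInt.norm_nonneg D
      show D.norm.natAbs ≤ X
      omega
    have h1 : ((Pool.Agent.Y699.GB X : Finset GaussianInt) : Set GaussianInt) ⊆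
        {D : GaussianInt | InClass D ∧ HasNoSplitting D ∧ D.norm ≤ X} := by
      intro D hD
      have h2 : D ∈ Pool.Agent.Y699.SB X ∧ Pool.Agent.Y699.Good D := by
        have h0 := Finset.mem_coe.1 hD
        unfold Pool.Agent.Y699.GB at h0
        classical
        exact Finset.mem_filter.1 h0
      have h3 := (Pool.Agent.Y699.mem_SB).1 h2.1
      have hC : InClass D := ⟨(primary_iff D).2 h3.2.prm, h3.2.sqf, h2.2.five⟩
      refine ⟨hC, (good_iff hC).2 h2.2, ?_⟩
      have h4 : D.norm.natAbs ≤ X := h3.1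
      show D.norm ≤ (X : ℤ)
      omega
    have h5 := Set.ncard_le_ncard h1 hfin
    rw [Set.ncard_coe_finset] at h5
    exact_mod_cast h5
  · have hA := (ag_iff hD hM).1 hG
    exact ⟨many hD hM hA, fun K _ _ e => fields hD hM hA e⟩

end Pool.Agent.Results.MP_6dc9d1_nt.GaussianMultiquadraticTowers
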