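import Mathlib
import Pool.Agent.Helper93.X49.Mat
import Pool.Agent.Helper93.X49.Lf
import Pool.Agent.Results.MP_03e5d0_nt.FullClassX49

/-!
# Beilinson's conjecture on ranks for the quadratic twists of `X_0(49)` over real multiquadratic fields

Here `i = 0` and `X = E_D : y² = x³ - 35 D² x - 98 D³`, the quadratic twist by `D` of
`X_0(49) : y² + x y = x³ - x² - 2 x - 1`, so that `CH¹(X)_0` is `E_D(F)`; both sides of the conjecture
will be `0`.

`D` runs through the squarefree natural numbers with all prime factors `≡ 1` modulo `4`, `S` is any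
finite set of such numbers which is independent modulo squares, and `F = ℚ(√m : m ∈ S)`, a real field of
degree `2 ^ #S`.  `S` is good for `D` if `E_N(ℚ)` is finite and `Ш(E_N/ℚ)[2] = 0` for the squarefree
parts `N` of all the products `D ∏_{m ∈ T} m`, `T ⊆ S`.

* For every `S` exactly the proportion `c ^ (2 ^ #S)`, `c = ∏_{i ≥ 0} (1 - 2^{-(2i+1)}) = 0.4194...`, of
  the `D` has the property that `S` is good for `D`.
* If `S` is good for `D`, then `L(E_D/F, s)` is entire, `L(E_D/F, 1) ≠ 0` and `E_D(F)` is finite for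
  `F = ℚ(√m : m ∈ S)`.
* In this case a positive proportion of the primes `l` can be added to `S`.  So for each such pair `S`,
  `D` (for example for `S = ∅` and `D = 1`, that is for `X_0(49)`) there are infinite towers of real
  multiquadratic fields over which Beilinson's conjecture is true for `E_D`.

So for each of the fields `F = ℚ(√m : m ∈ S)` the conjecture is true for a positive proportion of the
`E_D`.  The `L`-functions are the Euler products over the places of `F` not dividing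
`14 D ∏_{m ∈ S} m`; the factors at the finitely many other places are finite and not zero at `s = 1`, so
the order of vanishing at `s = 1` is the same.

The proportion of the `D` such that finitely many given twists of `E_D` have analytic rank zero and
finitely many rational points is the theorem of the starting file `MP_03e5d0_nt/FullClassX49`.  New here:
the `L`-functions and the groups of points over the multiquadratic fields (`Pool/Agent/Helper93/Bq`), and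
the new primes `l` (`Pool/Agent/Helper93/X49/Mat.lean`).
-/

set_option autoImplicit false

namespace Pool.Agent.Results.MP_6dc9d1_nt.RealMultiquadraticTowersX49

open NumberField IsDedekindDomain Filter Topology
open Pool.Agent.TH841.NF.D (Sha)

/-- `D` is squarefree and all its prime factors are `≡ 1` modulo `4`. -/
def InClass (D : ℕ) : Prop := Squarefree D ∧ ∀ p ∈ D.primeFactors, p % 4 = 1

/-- No product of different elements of `S` is a square. -/
def Independent (S : Finset ℕ) : Prop := ∀ T ⊆ S, T.Nonempty → ¬ IsSquare (∏ m ∈ T, m)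

/-- The minimal equation `y² + x y = x³ - (3 N + 1)/4 x² - 2 N² x - N³` over `ℚ` of the twist of
`X_0(49)` by `N` (`N ≡ 1` modulo `4`); the short form is `y² = x³ - 35 N² x - 98 N³`. -/
abbrev minimalCurve (N : ℕ) : WeierstrassCurve ℚ :=
  (⟨1, -((3 * N + 1) / 4), 0, -2 * N ^ 2, -N ^ 3⟩ : WeierstrassCurve ℤ).map (Int.castRingHom ℚ)

/-- `E_N(ℚ)` is finite and `Ш(E_N/ℚ)` has no element of order two. -/
def NoSelmer (N : ℕ) : Prop :=
  Finite (minimalCurve N).toAffine.Point ∧ ∀ x : Sha (minimalCurve N), 2 • x = 0 → x = 0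

/-- `NoSelmer N` for the squarefree parts `N` of all the products `D ∏_{m ∈ T} m`, `T ⊆ S`. -/
def Good (S : Finset ℕ) (D : ℕ) : Prop :=
  ∀ T ⊆ S, ∀ N k : ℕ, InClass N → D * ∏ m ∈ T, m = N * k ^ 2 → NoSelmer N

open Classical in
/-- the number of the `D ≤ X` of the class with the property `Q` -/
noncomputable def num (Q : ℕ → Prop) (X : ℕ) : ℕ :=
  ((Finset.Icc 1 X).filter fun D => InClass D ∧ Q D).card

/-- the constant `0.4194...` -/
noncomputable def c : ℝ := ∏' i : ℕ, (1 - (1 / 2 : ℝ) ^ (2 * i + 1))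

/-- `F = ℚ(√m : m ∈ S)`. -/
def Generated (S : Finset ℕ) (F : Type) [Field F] : Prop :=
  ∃ r : ℕ → F, (∀ m ∈ S, r m ^ 2 = (m : F)) ∧ ∀ E : Subfield F, (∀ m ∈ S, r m ∈ E) → E = ⊤

/-- The curve `y² = x³ - 35 D² x - 98 D³` over `F`. -/
def curve (F : Type) [Field F] (D : ℕ) : WeierstrassCurve F := ⟨0, 0, 0, -35 * D ^ 2, -98 * D ^ 3⟩

section
variable (F : Type) [Field F] [NumberField F]

/-- `a_v`: `Nv` minus the number of the pairs `(x, y)` modulo `v` with `y² = x³ - 35 D² x - 98 D³`. -/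
noncomputable def av (D : ℕ) (v : HeightOneSpectrum (𝓞 F)) : ℤ :=
  ((Ideal.absNorm v.asIdeal : ℕ) : ℤ) - ((Nat.card {x : (𝓞 F ⧸ v.asIdeal) × (𝓞 F ⧸ v.asIdeal) //
    x.2 ^ 2 = x.1 ^ 3 - 35 * (D : 𝓞 F ⧸ v.asIdeal) ^ 2 * x.1 - 98 * (D : 𝓞 F ⧸ v.asIdeal) ^ 3} : ℕ) : ℤ)

/-- `L` is entire and equal for `Re s > 3/2` to the Euler product of `L(E_D/F, s)` over the places of
`F` that do not divide `B`. -/
def IsLFunction (D B : ℕ) (L : ℂ → ℂ) : Prop :=
  Differentiable ℂ L ∧ ∀ s : ℂ, 3 / 2 < s.re →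
    HasProd (fun v : {v : HeightOneSpectrum (𝓞 F) // (B : 𝓞 F) ∉ v.asIdeal} =>
      (1 - (av F D v.1 : ℂ) * (Ideal.absNorm v.1.asIdeal : ℂ) ^ (-s) +
        (Ideal.absNorm v.1.asIdeal : ℂ) ^ (1 - 2 * s))⁻¹) (L s)

/-- `E_D(F)` is finite, and `L(E_D/F, s)`, without the factors at the places dividing `B`, is entire and
not zero at `s = 1`. -/
def RankZero (D B : ℕ) : Prop :=
  Finite (curve F D).toAffine.Point ∧ ∃ L : ℂ → ℂ, IsLFunction F D B L ∧ L 1 ≠ 0

end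

section proof

open Pool.Agent.Helper93.Bq (HasL Sol Indep Gen)
open Pool.Agent.Helper93.X49 (Gd gd_insert PF PF_spec primesQ exists_N prod_ne sol_x49 hasL_x49 Ind
  cast_inj)
open Pool.Agent.Results.MP_4a9ea6_nt.TwoPartTwistsX49 (Adm mat)

lemma noSelmer_iff {N : ℕ} (h : InClass N) : NoSelmer N ↔ (mat N).det ≠ 0 :=
  Pool.Agent.Results.MP_03e5d0_nt.FullClassX49.sel_det h

lemma good_iff {S : Finset ℕ} {D : ℕ} : Good S D ↔ Gd S D := by
  unfold Good Gd
  refine forall₂_congr fun T hT => forall₂_congr fun N k => forall₂_congr fun hN hk => ?_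
  exact noSelmer_iff hN

lemma many {S : Finset ℕ} (hS : ∀ m ∈ S, InClass m) {D : ℕ} (hD : InClass D) (hI : Independent S)
    (hG : Good S D) : ∃ a : ℝ, 0 < a ∧ ∀ᶠ X : ℕ in atTop, a * (Nat.primeCounting X : ℝ) ≤
      (Set.ncard {l : ℕ | l.Prime ∧ l % 4 = 1 ∧ (∀ m ∈ insert D S, ¬ l ∣ m) ∧
        Independent (insert l S) ∧ Good (insert l S) D ∧ l ≤ X} : ℝ) := by
  classical
  obtain ⟨a, ha, h1⟩ := primesQ (PF_spec hS hD)
  refine ⟨a, ha, ?_⟩
  filter_upwards [h1] with X hX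
  refine hX.trans ?_
  have hfin : {l : ℕ | l.Prime ∧ l % 4 = 1 ∧ (∀ m ∈ insert D S, ¬ l ∣ m) ∧
        Independent (insert l S) ∧ Good (insert l S) D ∧ l ≤ X}.Finite :=
    (Set.finite_Iic X).subset fun l hl => hl.2.2.2.2.2
  refine Nat.cast_le.2 (Set.ncard_le_ncard ?_ hfin)
  rintro l ⟨⟨hl, h4, h7, hlP, hsq⟩, hlX⟩
  obtain ⟨h2, h3, h5⟩ := gd_insert hS hD (good_iff.1 hG) hl h7 hlP hsq
  refine ⟨hl, h4, ?_, Ind.insert hI hl h3, good_iff.2 h5, hlX⟩
  intro m hm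
  rcases Finset.mem_insert.1 hm with rfl | hm
  · exact h2
  · exact h3 m hm

lemma num_eq {Q R : ℕ → Prop} (h : ∀ D, Q D ↔ R D) (X : ℕ) :
    num Q X = Pool.Agent.R413.SQ.Joint.num R X := by
  classical
  unfold num Pool.Agent.R413.SQ.Joint.num
  refine congrArg Finset.card (Finset.filter_congr fun D _ => ?_)
  exact and_congr_right fun _ => h D

/-- the set of the elements of `𝓞 ℚ` -/
noncomputable def im (S : Finset ℕ) : Finset (𝓞 ℚ) :=
  open Classical in S.image fun m : ℕ => ((m : ℕ) : 𝓞 ℚ)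

lemma ninj : Function.Injective (fun m : ℕ => ((m : ℕ) : 𝓞 ℚ)) := fun _ _ h => Nat.cast_injective h

lemma mem_im {S : Finset ℕ} {d : 𝓞 ℚ} (hd : d ∈ im S) : ∃ m ∈ S, ((m : ℕ) : 𝓞 ℚ) = d := by
  classical
  exact Finset.mem_image.1 hd

lemma im_mem {S : Finset ℕ} {m : ℕ} (hm : m ∈ S) : ((m : ℕ) : 𝓞 ℚ) ∈ im S := by
  classical
  exact Finset.mem_image_of_mem _ hm

lemma sub_im {S : Finset ℕ} {T : Finset (𝓞 ℚ)} (hT : T ⊆ im S) : ∃ U ⊆ S, im U = T := by
  classical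
  obtain ⟨U, hU, h⟩ := Finset.subset_image_iff.1 hT
  exact ⟨U, hU, h⟩

lemma prod_im (U : Finset ℕ) : (∏ d ∈ im U, d : 𝓞 ℚ) = ((∏ m ∈ U, m : ℕ) : 𝓞 ℚ) := by
  classical
  unfold im
  rw [Finset.prod_image (fun a _ b _ h => ninj h)]
  push_cast
  rfl

lemma card_im (S : Finset ℕ) : (im S).card = S.card := by
  classical
  exact Finset.card_image_of_injective _ ninj

lemma indep_im {S : Finset ℕ} (hI : Independent S) : Indep (K := ℚ) (im S) := by
  intro T hT hne hsq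
  obtain ⟨U, hU, rfl⟩ := sub_im hT
  rw [prod_im] at hsq
  have e1 : (((∏ m ∈ U, m : ℕ) : 𝓞 ℚ) : ℚ) = ((∏ m ∈ U, m : ℕ) : ℚ) :=
    map_natCast (algebraMap (𝓞 ℚ) ℚ) _
  rw [e1, Rat.isSquare_natCast_iff] at hsq
  refine hI U hU ?_ hsq
  by_contra h
  rw [Finset.not_nonempty_iff_eq_empty] at h
  subst h
  simp [im] at hne

lemma av_eq {F : Type} [Field F] [NumberField F] (D : ℕ) (v : HeightOneSpectrum (𝓞 F)) :
    av F D v = Pool.Agent.Helper93.Bq.ap (-35 * (D : 𝓞 F) ^ 2) (-98 * (D : 𝓞 F) ^ 3) v := by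
  unfold av Pool.Agent.Helper93.Bq.ap Pool.Agent.Helper93.Bq.cnt
  congr 2
  apply Nat.card_congr
  refine Equiv.subtypeEquivRight fun x => ?_
  have e1 : Ideal.Quotient.mk v.asIdeal (-35 * (D : 𝓞 F) ^ 2) =
      -(35 * (D : 𝓞 F ⧸ v.asIdeal) ^ 2) := by
    rw [map_mul, map_pow, map_neg, map_ofNat, map_natCast, neg_mul]
  have e2 : Ideal.Quotient.mk v.asIdeal (-98 * (D : 𝓞 F) ^ 3) =
      -(98 * (D : 𝓞 F ⧸ v.asIdeal) ^ 3) := by
    rw [map_mul, map_pow, map_neg, map_ofNat, map_natCast, neg_mul]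
  rw [e1, e2, neg_mul, ← sub_eq_add_neg, ← sub_eq_add_neg]

lemma exists_fields (S : Finset ℕ) : ∃ (F : Type) (_ : Field F) (_ : NumberField F), Generated S F := by
  obtain ⟨r, hr⟩ := Pool.Agent.Helper93.Bq.exists_gen (K := ℚ) (im S)
  refine ⟨(Pool.Agent.Helper93.Bq.pS (im S)).SplittingField, inferInstance, inferInstance,
    fun m => (r m : (Pool.Agent.Helper93.Bq.pS (im S)).SplittingField), ?_, ?_⟩
  · intro m hm
    have h1 := congrArg (algebraMap (𝓞 (Pool.Agent.Helper93.Bq.pS (im S)).SplittingField)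
      (Pool.Agent.Helper93.Bq.pS (im S)).SplittingField) (hr.sq m (im_mem hm))
    rw [map_pow] at h1
    rw [h1, map_natCast, map_natCast]
  · intro E hE
    let E' : IntermediateField ℚ (Pool.Agent.Helper93.Bq.pS (im S)).SplittingField :=
      E.toIntermediateField fun x => by
        rw [eq_ratCast]
        exact SubfieldClass.ratCast_mem E x
    have h1 : E' = ⊤ := by
      refine hr.gen E' fun d hd => ?_
      obtain ⟨m, hm, rfl⟩ := mem_im hd
      exact hE m hm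
    ext x
    constructor
    · intro _
      trivial
    · intro _
      have h2 : x ∈ E' := by
        rw [h1]
        trivial
      exact h2

lemma fields {S : Finset ℕ} (hS : ∀ m ∈ S, InClass m) {D : ℕ} (hD : InClass D) (hI : Independent S)
    (hG : Good S D) (F : Type) [Field F] [NumberField F] (hF : Generated S F) :
    Module.finrank ℚ F = 2 ^ S.card ∧ RankZero F D (14 * D * ∏ m ∈ S, m) := by
  classical
  obtain ⟨r, hr, hgen⟩ := hF
  -- integral square roots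
  have hex : ∀ d : 𝓞 ℚ, ∃ y : 𝓞 F, ∀ m ∈ S, ((m : ℕ) : 𝓞 ℚ) = d → (y : F) = r m := by
    intro d
    by_cases hd : d ∈ im S
    · obtain ⟨m, hm, rfl⟩ := mem_im hd
      have hint : IsIntegral ℤ (r m) := by
        have h3 : IsIntegral ℤ (r m ^ 2) := by
          rw [hr m hm]
          have h4 := isIntegral_algebraMap (R := ℤ) (A := F) (x := (m : ℤ))
          simpa using h4
        exact h3.of_pow (by norm_num)
      refine ⟨⟨r m, hint⟩, fun m' _ h => ?_⟩
      rw [ninj h]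
      rfl
    · exact ⟨0, fun m hm h => absurd (h ▸ im_mem hm) hd⟩
  choose r' hr' using hex
  have hG' : Gen (K := ℚ) (im S) F r' := by
    refine ⟨fun d hd => ?_, fun E hE => ?_⟩
    · obtain ⟨m, hm, rfl⟩ := mem_im hd
      apply RingOfIntegers.ext
      have h1 := hr' ((m : ℕ) : 𝓞 ℚ) m hm rfl
      have h2 : ((r' ((m : ℕ) : 𝓞 ℚ) ^ 2 : 𝓞 F) : F) = (r' ((m : ℕ) : 𝓞 ℚ) : F) ^ 2 := rfl
      rw [h2, h1, hr m hm, map_natCast]
      exact (map_natCast (algebraMap (𝓞 F) F) m).symm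
    · have h1 : E.toSubfield = ⊤ := by
        refine hgen _ fun m hm => ?_
        have h2 := hE _ (im_mem hm)
        rw [hr' _ m hm rfl] at h2
        exact h2
      ext x
      constructor
      · intro _
        trivial
      · intro _
        have h2 : x ∈ E.toSubfield := by
          rw [h1]
          trivial
        exact h2
  set B : ℕ := 14 * D * ∏ m ∈ S, m with hB
  have hB0 : B ≠ 0 := by
    have := prod_ne hS hD (Finset.Subset.refl S)
    rw [hB, mul_assoc]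
    exact mul_ne_zero (by norm_num) this
  have hB0' : ((B : ℕ) : 𝓞 ℚ) ≠ 0 := Nat.cast_ne_zero.2 hB0
  have hdv : ∀ z : ℕ, z ∣ B → ∀ v : HeightOneSpectrum (𝓞 ℚ), ((B : ℕ) : 𝓞 ℚ) ∉ v.asIdeal →
      ((z : ℕ) : 𝓞 ℚ) ∉ v.asIdeal := fun z hz v hv =>
    Pool.Agent.Helper93.Bq.not_mem_of_dvd (Nat.cast_dvd_cast hz) hv
  have hB2 : ∀ v : HeightOneSpectrum (𝓞 ℚ), ((B : ℕ) : 𝓞 ℚ) ∉ v.asIdeal → (2 : 𝓞 ℚ) ∉ v.asIdeal := by
    intro v hv
    have h1 := hdv 2 (by rw [hB, mul_assoc]; exact Dvd.dvd.mul_right (by norm_num) _) v hv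
    exact_mod_cast h1
  have hB7 : ∀ v : HeightOneSpectrum (𝓞 ℚ), ((B : ℕ) : 𝓞 ℚ) ∉ v.asIdeal → (7 : 𝓞 ℚ) ∉ v.asIdeal := by
    intro v hv
    have h1 := hdv 7 (by rw [hB, mul_assoc]; exact Dvd.dvd.mul_right (by norm_num) _) v hv
    exact_mod_cast h1
  have hDB : D ∣ B := by rw [hB]; exact (dvd_mul_left _ _).mul_right _
  have hkey : ∀ U ⊆ S, D * ∏ m ∈ U, m ∣ B := by
    intro U hU
    rw [hB, mul_assoc]
    exact (mul_dvd_mul_left D (Finset.prod_dvd_prod_of_subset U S _ hU)).mul_left _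
  obtain ⟨-, t2, t3, t4⟩ := Pool.Agent.Helper93.Bq.tower (K := ℚ) ((B : ℕ) : 𝓞 ℚ) hB2 (im S)
    (fun d hd v hv => by
      obtain ⟨m, hm, rfl⟩ := mem_im hd
      exact hdv m (by rw [hB]; exact (Finset.dvd_prod_of_mem _ hm).mul_left _) v hv)
    (indep_im hI) F r' hG'
  rw [card_im] at t2
  refine ⟨t2, ?_, ?_⟩
  · -- the points
    have hD0 : (D : ℚ) ≠ 0 := Nat.cast_ne_zero.2 hD.1.ne_zero
    have h1 := t4 (-35 * (D : ℚ) ^ 2) (-98 * (D : ℚ) ^ 3) (by
      have e1 : 4 * (-35 * (D : ℚ) ^ 2) ^ 3 + 27 * (-98 * (D : ℚ) ^ 3) ^ 2 =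
          87808 * (D : ℚ) ^ 6 := by ring
      rw [e1]
      exact mul_ne_zero (by norm_num) (pow_ne_zero _ hD0)) (by
      intro T hT
      obtain ⟨U, hU, rfl⟩ := sub_im hT
      obtain ⟨N, k, hN, hk⟩ := exists_N hS hD hU
      have hdet := (good_iff.1 hG) U hU N k hN hk
      have h2 := sol_x49 hN hdet
      have hk0 : (k : ℚ) ≠ 0 := by
        intro h
        have h3 := prod_ne hS hD hU
        rw [hk, Nat.cast_eq_zero.1 h] at h3
        exact h3 (by simp)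
      have h4 := Pool.Agent.Helper93.X49.Sol.sq h2 (k : ℚ) hk0
      have e1 : (((∏ d ∈ im U, d : 𝓞 ℚ)) : ℚ) = ((∏ m ∈ U, m : ℕ) : ℚ) := by
        rw [prod_im]
        exact map_natCast (algebraMap (𝓞 ℚ) ℚ) _
      rw [e1]
      have e2 : (D : ℚ) * ((∏ m ∈ U, m : ℕ) : ℚ) = (N : ℚ) * (k : ℚ) ^ 2 := by exact_mod_cast hk
      have e3 : (((∏ m ∈ U, m : ℕ) : ℚ)) ^ 2 * (-35 * (D : ℚ) ^ 2) =
          (k : ℚ) ^ 4 * (-35 * (N : ℚ) ^ 2) := by
        calc (((∏ m ∈ U, m : ℕ) : ℚ)) ^ 2 * (-35 * (D : ℚ) ^ 2) =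
              -35 * ((D : ℚ) * ((∏ m ∈ U, m : ℕ) : ℚ)) ^ 2 := by ring
          _ = _ := by rw [e2]; ring
      have e4 : (((∏ m ∈ U, m : ℕ) : ℚ)) ^ 3 * (-98 * (D : ℚ) ^ 3) =
          (k : ℚ) ^ 6 * (-98 * (N : ℚ) ^ 3) := by
        calc (((∏ m ∈ U, m : ℕ) : ℚ)) ^ 3 * (-98 * (D : ℚ) ^ 3) =
              -98 * ((D : ℚ) * ((∏ m ∈ U, m : ℕ) : ℚ)) ^ 3 := by ring
          _ = _ := by rw [e2]; ring
      rw [e3, e4]
      exact h4)
    have hDF : (D : F) ≠ 0 := Nat.cast_ne_zero.2 hD.1.ne_zero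
    have h3 : curve F D = Pool.Agent.Helper93.Bq.crv F (-35 * (D : F) ^ 2) (-98 * (D : F) ^ 3) := rfl
    rw [h3, Pool.Agent.Helper93.Bq.finite_iff two_ne_zero]
    · simp only [map_mul, map_neg, map_pow, map_natCast, map_ofNat] at h1
      exact h1
    · have e1 : 4 * (-35 * (D : F) ^ 2) ^ 3 + 27 * (-98 * (D : F) ^ 3) ^ 2 =
          87808 * (D : F) ^ 6 := by ring
      rw [e1]
      exact mul_ne_zero (by norm_num) (pow_ne_zero _ hDF)
  · -- the `L`-function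
    have hL := t3 (-35 * (D : 𝓞 ℚ) ^ 2) (-98 * (D : 𝓞 ℚ) ^ 3) (by
      intro v hv
      have e1 : 4 * (-35 * (D : 𝓞 ℚ) ^ 2) ^ 3 + 27 * (-98 * (D : 𝓞 ℚ) ^ 3) ^ 2 =
          2 ^ 8 * (7 ^ 3 * (D : 𝓞 ℚ) ^ 6) := by ring
      rw [e1]
      intro h2
      rcases v.isPrime.mem_or_mem h2 with h3 | h3
      · exact hB2 v hv (v.isPrime.mem_of_pow_mem _ h3)
      · rcases v.isPrime.mem_or_mem h3 with h4 | h4
        · exact hB7 v hv (v.isPrime.mem_of_pow_mem _ h4)
        · exact hdv D hDB v hv (v.isPrime.mem_of_pow_mem _ h4)) (by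
      intro T hT
      obtain ⟨U, hU, rfl⟩ := sub_im hT
      obtain ⟨N, k, hN, hk⟩ := exists_N hS hD hU
      have hdet := (good_iff.1 hG) U hU N k hN hk
      have hNB : N ∣ B := (Dvd.intro _ hk.symm).trans (hkey U hU)
      have hkB : k ∣ B := ((Dvd.intro_left _ (by rw [hk, sq, mul_assoc] : N * k * k = _)).trans
        (hkey U hU))
      have h2 := hasL_x49 hN hdet hB0'
        (fun v hv => by exact_mod_cast hB2 v hv) (fun v hv => by exact_mod_cast hB7 v hv)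
        (fun v hv => by exact_mod_cast hdv N hNB v hv)
      have h4 := Pool.Agent.Helper93.X49.HasL.sq h2 ((k : ℕ) : 𝓞 ℚ) hB2 (fun v hv => hdv k hkB v hv)
      rw [prod_im]
      have e2 : (D : 𝓞 ℚ) * ((∏ m ∈ U, m : ℕ) : 𝓞 ℚ) = (N : 𝓞 ℚ) * (k : 𝓞 ℚ) ^ 2 := by
        exact_mod_cast congrArg (fun n : ℕ => ((n : ℕ) : 𝓞 ℚ)) hk
      have e3 : (((∏ m ∈ U, m : ℕ) : 𝓞 ℚ)) ^ 2 * (-35 * (D : 𝓞 ℚ) ^ 2) =
          (k : 𝓞 ℚ) ^ 4 * ((-35 * (N : ℤ) ^ 2 : ℤ) : 𝓞 ℚ) := by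
        calc (((∏ m ∈ U, m : ℕ) : 𝓞 ℚ)) ^ 2 * (-35 * (D : 𝓞 ℚ) ^ 2) =
              -35 * ((D : 𝓞 ℚ) * ((∏ m ∈ U, m : ℕ) : 𝓞 ℚ)) ^ 2 := by ring
          _ = _ := by rw [e2]; push_cast; ring
      have e4 : (((∏ m ∈ U, m : ℕ) : 𝓞 ℚ)) ^ 3 * (-98 * (D : 𝓞 ℚ) ^ 3) =
          (k : 𝓞 ℚ) ^ 6 * ((-98 * (N : ℤ) ^ 3 : ℤ) : 𝓞 ℚ) := by
        calc (((∏ m ∈ U, m : ℕ) : 𝓞 ℚ)) ^ 3 * (-98 * (D : 𝓞 ℚ) ^ 3) =
              -98 * ((D : 𝓞 ℚ) * ((∏ m ∈ U, m : ℕ) : 𝓞 ℚ)) ^ 3 := by ring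
          _ = _ := by rw [e2]; push_cast; ring
      rw [e3, e4]
      exact h4)
    have f1 : algebraMap (𝓞 ℚ) (𝓞 F) ((B : ℕ) : 𝓞 ℚ) = ((B : ℕ) : 𝓞 F) := map_natCast _ _
    have f2 : algebraMap (𝓞 ℚ) (𝓞 F) (-35 * (D : 𝓞 ℚ) ^ 2) = -35 * (D : 𝓞 F) ^ 2 := by
      rw [map_mul, map_neg, map_pow, map_natCast, map_ofNat]
    have f3 : algebraMap (𝓞 ℚ) (𝓞 F) (-98 * (D : 𝓞 ℚ) ^ 3) = -98 * (D : 𝓞 F) ^ 3 := by
      rw [map_mul, map_neg, map_pow, map_natCast, map_ofNat]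
    rw [f1, f2, f3] at hL
    obtain ⟨L, h1, h2, h3⟩ := hL
    refine ⟨L, ⟨h1, fun s hs => ?_⟩, h2⟩
    have h4 := h3 s hs
    refine h4.congr_fun fun v => ?_
    unfold Pool.Agent.Helper93.Bq.ef
    rw [av_eq]

end proof

/-- **Main theorem.**  (1) For each finite independent set `S` of numbers of the class exactly the
proportion `c ^ (2 ^ #S)` of the numbers `D` of the class has the property that `S` is good for `D`,
`c = 0.4194...`; there are at least `a X / √(log X)`, `a > 0`, such `D ≤ X`.  (2) Let `S` be good for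
`D`.  Then at least `a π(X)`, `a > 0`, of the primes `l ≤ X`, `l ≡ 1` modulo `4`, which divide neither
`D` nor an element of `S`, have the property that `S ∪ {l}` is good for `D`; and for all fields
`F = ℚ(√m : m ∈ S)` (they exist and have degree `2 ^ #S` over `ℚ`) `E_D(F)` is finite and
`L(E_D/F, s)`, without the factors at the places dividing `14 D ∏_{m ∈ S} m`, is entire and not zero at
`s = 1`. -/
theorem result :
    (∀ S : Finset ℕ, (∀ m ∈ S, InClass m) → Independent S →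
      Tendsto (fun X : ℕ => (num (Good S) X : ℝ) / (num (fun _ => True) X : ℝ)) atTop
        (𝓝 (c ^ (2 ^ S.card))) ∧
      ∃ (a : ℝ) (X₀ : ℕ), 0 < a ∧ ∀ X : ℕ, X₀ ≤ X →
        a * X / Real.sqrt (Real.log X) ≤ (num (Good S) X : ℝ)) ∧
    0.4194 < c ∧ c < 0.4195 ∧
    ∀ (S : Finset ℕ) (D : ℕ), (∀ m ∈ S, InClass m) → Independent S → InClass D → Good S D →
      (∃ a : ℝ, 0 < a ∧ ∀ᶠ X : ℕ in atTop, a * (Nat.primeCounting X : ℝ) ≤
        (Set.ncard {l : ℕ | l.Prime ∧ l % 4 = 1 ∧ (∀ m ∈ insert D S, ¬ l ∣ m) ∧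
          Independent (insert l S) ∧ Good (insert l S) D ∧ l ≤ X} : ℝ)) ∧
      (∃ (F : Type) (_ : Field F) (_ : NumberField F), Generated S F) ∧
      ∀ (F : Type) [Field F] [NumberField F], Generated S F →
        Module.finrank ℚ F = 2 ^ S.card ∧ RankZero F D (14 * D * ∏ m ∈ S, m) := by
  have hcc : Pool.Agent.Y703.CQ.c2 = c := rfl
  have hc1 : 0.4194 < c := Pool.Agent.Y948.CQ.t_C2.2.2.2.1
  have hc2 : c < 0.4195 := Pool.Agent.Y948.CQ.t_C2.2.2.2.2
  refine ⟨fun S hS hI => ?_, hc1, hc2, fun S D hS hI hD hG =>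
    ⟨many hS hD hI hG, exists_fields S, fun F _ _ hF => fields hS hD hI hG F hF⟩⟩
  have h := Pool.Agent.Helper93.X49.prop hI hS
  rw [hcc] at h
  have h1 := fun X => num_eq (fun D => good_iff (S := S) (D := D)) X
  have h2 := fun X => num_eq (Q := fun _ => True) (R := fun _ => True) (fun _ => Iff.rfl) X
  refine ⟨?_, ?_⟩
  · simp only [h1, h2]
    exact h
  · have h3 : 0 < c ^ (2 ^ S.card) := by
      have k1 : 0 < c := by linarith
      positivity
    simp only [h1]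
    exact Pool.Agent.R413.SQ.Joint.low_of h3 h

end Pool.Agent.Results.MP_6dc9d1_nt.RealMultiquadraticTowersX49
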