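import Mathlib
import Pool.Agent.Helper93.Tq.Gau

/-!
# Beilinson's conjecture on ranks for intersections of two quadrics in `P⁵` over infinite
# multiquadratic towers of `ℚ(i)`

Here `i = 1` and `X` is a smooth complete intersection of two quadrics in `P⁵` (a quartic del Pezzo
threefold).  Let `X` be given over the number field `F` by the symmetric matrices `A₀`, `A₁`, and let `C` be
the curve `y² = - det (s A₀ + t A₁)` of genus `2`.  The intermediate Jacobian of `X` is the Jacobian `J` of `C`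
(Reid, Donagi; over a field that is not algebraically closed Wang, Bhargava-Gross-Wang) and
`CH²(X)_0 ⊗ ℚ = J(F) ⊗ ℚ` (Bloch-Srinivas); this is not formalized.

`D` runs through the primary squarefree Gaussian integers of norm `≡ 5` modulo `8`, `E_D` is the curve
`y² = x³ - D² x`, and `C_D` is the curve `y² = 3 D (x² - 1) (x² + 2) (2 x² + 1)` of genus `2`.  Its Jacobian is
isogenous to `E_D × E_D`.  The theorem is about *all* the threefolds `X` over `F` with the curve `C_D`, that is
`det (s A₀ + t A₁) = κ² 3 D (s² - t²) (s² + 2 t²) (2 s² + t²)` for a suitable basis of the pencil of quadrics.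

* A positive proportion of all `D`, ordered by the norm, has no splitting (`D = d d'` with `d'` a
  square modulo the primes of `d` and vice versa).
* If all the products `D ∏_{l ∈ T} l`, `T ⊆ M`, have no splitting, then for `F = ℚ(i)(√l : l ∈ M)` and for all
  the threefolds `X` over `F` with the curve `C_D` (they exist) the group `E_D(F)`, and so `J(F)`, is finite and
  `L(H³(X), s)` is entire and not zero at its centre `s = 2`.
* In this case a positive proportion of the Gaussian primes `l` can be added to `M`.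

So both sides of Beilinson's conjecture are `0` for these threefolds.  The `L`-function is given by the numbers
of points: for a place `v` of `F` not dividing `6 κ D ∏ l` the four eigenvalues `α` of the Frobenius on
`H³(X)` are determined by `#X(k) = 1 + q + q² + q³ - ∑ α^r` for all the extensions `k` of degree `r` of the
residue field, `q = #k`.  The Euler factors at the finitely many other places are left out; they are finite and
not zero at the centre, so the order of vanishing is the same.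

The numbers of points (Gauss sums, the discriminant of the pencil, two substitutions which split the sum of the
quadratic characters of the sextic in the sums for two quadratic twists of an elliptic curve with a point of
order two) are in `Pool/Agent/Helper93/Tq`; the curves `E_D` over the fields `F` are in
`MP_6dc9d1_nt/GaussianMultiquadraticTowers`.
-/

set_option autoImplicit false

namespace Pool.Agent.Results.MP_6dc9d1_nt.TwoQuadricThreefolds

open NumberField IsDedekindDomain Filter Matrix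
open Pool.Agent.Results.MP_6dc9d1_nt.GaussianMultiquadraticTowers
  (InClass HasNoSplitting Admissible Good Generated curve)

section
variable {F : Type} [Field F] [NumberField F]

/-- `X : xᵀ A₀ x = xᵀ A₁ x = 0` is a smooth intersection of two quadrics in `P⁵`, and its curve of genus
`2` is `C_D : y² = 3 D (x² - 1) (x² + 2) (2 x² + 1)`. -/
def IsThreefold (D κ : 𝓞 F) (A₀ A₁ : Matrix (Fin 6) (Fin 6) (𝓞 F)) : Prop :=
  A₀.IsSymm ∧ A₁.IsSymm ∧ κ ≠ 0 ∧ ∀ s t : 𝓞 F, (s • A₀ + t • A₁).det =
    κ ^ 2 * (3 * D * (s ^ 2 - t ^ 2) * (s ^ 2 + 2 * t ^ 2) * (2 * s ^ 2 + t ^ 2))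

/-- The common zeros, not all coordinates zero, of the two quadratic forms in the field `k`; the
coefficients are mapped to `k` by `φ`. -/
def solutions (A₀ A₁ : Matrix (Fin 6) (Fin 6) (𝓞 F)) {k : Type} [Field k] (φ : 𝓞 F →+* k) :
    Set (Fin 6 → k) :=
  {x | x ≠ 0 ∧ x ⬝ᵥ A₀.map φ *ᵥ x = 0 ∧ x ⬝ᵥ A₁.map φ *ᵥ x = 0}

/-- `S` is the multiset of the eigenvalues of the Frobenius of the place `v` on `H³(X)`: for every
extension `k` of degree `r` of the residue field the equations of `X` have
`(#k - 1) (1 + #k + #k² + #k³ - ∑ α^r)` nonzero solutions in `k`. -/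
def IsFrobenius (A₀ A₁ : Matrix (Fin 6) (Fin 6) (𝓞 F)) (v : HeightOneSpectrum (𝓞 F))
    (S : Multiset ℂ) : Prop :=
  ∀ (k : Type) [Field k] [Finite k] (φ : 𝓞 F →+* k) (r : ℕ), RingHom.ker φ = v.asIdeal →
    Nat.card k = Ideal.absNorm v.asIdeal ^ r →
    ((solutions A₀ A₁ φ).ncard : ℂ) = ((Nat.card k : ℂ) - 1) * (1 + (Nat.card k : ℂ) +
      (Nat.card k : ℂ) ^ 2 + (Nat.card k : ℂ) ^ 3 - (S.map (fun α => α ^ r)).sum)

/-- `L` is entire and equal for `Re s > 5/2` to the Euler product of `L(H³(X), s)` over the places `v` of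
`F` not dividing `B`.  The dimension of `H³(X)` is `4`, and the eigenvalues of the Frobenius at these places
have the absolute value `N(v) ^ (3/2)`. -/
def IsLFunction (A₀ A₁ : Matrix (Fin 6) (Fin 6) (𝓞 F)) (B : 𝓞 F) (L : ℂ → ℂ) : Prop :=
  Differentiable ℂ L ∧ ∃ S : HeightOneSpectrum (𝓞 F) → Multiset ℂ,
    (∀ v, B ∉ v.asIdeal → IsFrobenius A₀ A₁ v (S v) ∧ (S v).card = 4 ∧
      ∀ α ∈ S v, ‖α‖ ^ 2 = (Ideal.absNorm v.asIdeal : ℝ) ^ 3) ∧
    ∀ s : ℂ, 5 / 2 < s.re → HasProd (fun v : {v : HeightOneSpectrum (𝓞 F) // B ∉ v.asIdeal} =>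
      ((S v.1).map (fun α => (1 - α * (Ideal.absNorm v.1.asIdeal : ℂ) ^ (-s))⁻¹)).prod) (L s)

/-- `E_D(F)` is finite, and `L(H³(X), s)`, without the factors at the places dividing `B`, is entire and
not zero at the centre `s = 2`. -/
def RankZero (D B : 𝓞 F) (A₀ A₁ : Matrix (Fin 6) (Fin 6) (𝓞 F)) : Prop :=
  Finite (curve F (D : F)).toAffine.Point ∧ ∃ L : ℂ → ℂ, IsLFunction A₀ A₁ B L ∧ L 2 ≠ 0

end

/-- **Main theorem.**  (1) At least `c X`, `c > 0`, of the primary squarefree Gaussian integers `D` of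
norm at most `X` have norm `≡ 5` modulo `8` and no splitting.  (2) Let `D` be in the class and `M` a
finite set of admissible primes that is good for `D` (for `M = ∅` this means that `D` has no splitting).
Then at least `c π(X)`, `c > 0`, of the admissible primes `l` of norm at most `X` have the property
that `M ∪ {l}` is good for `D`; and for all fields `F = ℚ(i)(√l : l ∈ M)` (they exist and have
degree `2 ^ #M` over `ℚ(i)`; `K` is `ℚ(i)`) there are threefolds `X` over `F` with the curve `C_D`, and for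
all of them `E_D(F)` is finite and `L(H³(X), s)`, without the factors at the places dividing `6 κ D ∏ l`, is
entire and not zero at `s = 2`. -/
theorem result :
    (∃ c : ℝ, 0 < c ∧ ∃ X₀ : ℕ, ∀ X : ℕ, X₀ ≤ X →
      c * X ≤ (Set.ncard {D : GaussianInt | InClass D ∧ HasNoSplitting D ∧ D.norm ≤ X} : ℝ)) ∧
    ∀ (D : GaussianInt) (M : Finset GaussianInt), InClass D → (∀ l ∈ M, Admissible D l) →
      Good M D →
      (∃ c : ℝ, 0 < c ∧ ∀ᶠ X : ℕ in atTop, c * (Nat.primeCounting X : ℝ) ≤
        (Set.ncard {l : GaussianInt |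
          Admissible D l ∧ l ∉ M ∧ Good (insert l M) D ∧ l.norm ≤ X} : ℝ)) ∧
      ∀ (K : Type) [Field K] [NumberField K] (e : GaussianInt ≃+* 𝓞 K),
        (∃ (F : Type) (_ : Field F) (_ : NumberField F) (_ : Algebra K F), Generated M e F) ∧
        ∀ (F : Type) [Field F] [NumberField F] [Algebra K F], Generated M e F →
          Module.finrank K F = 2 ^ M.card ∧
          (∃ (κ : 𝓞 F) (A₀ A₁ : Matrix (Fin 6) (Fin 6) (𝓞 F)),
            IsThreefold (algebraMap (𝓞 K) (𝓞 F) (e D)) κ A₀ A₁) ∧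
          ∀ (κ : 𝓞 F) (A₀ A₁ : Matrix (Fin 6) (Fin 6) (𝓞 F)),
            IsThreefold (algebraMap (𝓞 K) (𝓞 F) (e D)) κ A₀ A₁ →
            RankZero (algebraMap (𝓞 K) (𝓞 F) (e D))
              (6 * κ * algebraMap (𝓞 K) (𝓞 F) (e (D * ∏ l ∈ M, l))) A₀ A₁ := by
  obtain ⟨h1, h2⟩ := Pool.Agent.Results.MP_6dc9d1_nt.GaussianMultiquadraticTowers.result
  refine ⟨h1, fun D M hD hM hG => ?_⟩
  obtain ⟨h3, h4⟩ := h2 D M hD hM hG
  refine ⟨h3, fun K _ _ e => ?_⟩
  obtain ⟨h5, h6⟩ := h4 K e
  refine ⟨h5, fun F _ _ _ hF => ?_⟩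
  obtain ⟨h7, h8⟩ := h6 F hF
  refine ⟨h7, ?_, ?_⟩
  · obtain ⟨A₀, A₁, k0, k1, k2⟩ :=
      Pool.Agent.Helper93.Tq.pencil_ex (algebraMap (𝓞 K) (𝓞 F) (e D))
    exact ⟨1, A₀, A₁, k0, k1, one_ne_zero, k2⟩
  · rintro κ A₀ A₁ ⟨k0, k1, k2, k3⟩
    refine ⟨h8.1, ?_⟩
    have inj : Function.Injective fun z : GaussianInt => algebraMap (𝓞 K) (𝓞 F) (e z) :=
      (FaithfulSMul.algebraMap_injective (𝓞 K) (𝓞 F)).comp e.injective
    have hP : D * ∏ l ∈ M, l ≠ 0 :=
      mul_ne_zero hD.2.1.ne_zero (Finset.prod_ne_zero_iff.2 fun l hl => (hM l hl).1.ne_zero)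
    have hP' : algebraMap (𝓞 K) (𝓞 F) (e (D * ∏ l ∈ M, l)) ≠ 0 := by
      intro h
      apply hP
      apply inj
      simp only [h, map_zero]
    have e2 : algebraMap (𝓞 K) (𝓞 F) (e (2 * D * ∏ l ∈ M, l)) =
        2 * algebraMap (𝓞 K) (𝓞 F) (e (D * ∏ l ∈ M, l)) := by
      rw [mul_assoc, map_mul, map_mul, map_ofNat, map_ofNat]
    refine Pool.Agent.Helper93.Tq.three h8 k0 k1 k3 (mul_ne_zero (mul_ne_zero (by norm_num) k2) hP')
      ?_ ⟨κ * algebraMap (𝓞 K) (𝓞 F) (e (D * ∏ l ∈ M, l)), by ring⟩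
      ⟨6 * algebraMap (𝓞 K) (𝓞 F) (e (D * ∏ l ∈ M, l)), by ring⟩ ?_ ?_
    · rw [e2]
      exact ⟨3 * κ, by ring⟩
    · rw [map_mul, map_mul]
      exact ⟨6 * κ * algebraMap (𝓞 K) (𝓞 F) (e (∏ l ∈ M, l)), by ring⟩
    · rw [e2]
      exact ⟨_, rfl⟩

end Pool.Agent.Results.MP_6dc9d1_nt.TwoQuadricThreefolds
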