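import Mathlib
import Pool.Agent.Helper93.X49.Fld
import Pool.Agent.Helper93.X49.Thr
import Pool.Agent.Results.MP_6dc9d1_nt.RealMultiquadraticTowersX49
import Pool.Agent.Results.MP_6dc9d1_nt.TwoQuadricThreefolds

/-!
# Beilinson's conjecture on ranks for intersections of two quadrics in `P⁵` over real fields and CM
# fields: the twists of `X_0(49)`

Here `i = 1` and `X` is a smooth complete intersection of two quadrics in `P⁵` (a quartic del Pezzo
threefold).

Let `X` be given over the number field `F` by the symmetric matrices `A₀`, `A₁`, and let `C` be the curve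
`y² = - det (s A₀ + t A₁)` of genus `2`.  The intermediate Jacobian of `X` is the Jacobian `J` of `C`
(Reid, Donagi; over a field that is not algebraically closed Wang, Bhargava-Gross-Wang) and
`CH²(X)_0 ⊗ ℚ = J(F) ⊗ ℚ` (Bloch-Srinivas); this is not formalized.

`D` runs through the squarefree natural numbers with all prime factors `≡ 1` modulo `4`, `E_D` is the
curve `y² = x³ - 35 D² x - 98 D³`, the twist by `D` of `X_0(49)`, and `C_D` is the curve
`y² = 21 D (x² + 1) (16 x⁴ - 31 x² + 16)` of genus `2`.  Its Jacobian is isogenous over `ℚ` to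
`E_{-7D} × E_{-7D}`, and so to `E_D × E_D` (`E_D` and `E_{-7D}` are isogenous over `ℚ`, by the complex
multiplication with `√-7`).  The theorem is about *all* the threefolds `X` over `F` with the curve `C_D`,
that is `- det (s A₀ + t A₁) = κ² 21 D (s² + t²) (16 s⁴ - 31 s² t² + 16 t⁴)` for a suitable basis of the
pencil of quadrics.

`S` is any finite set of numbers of the class which is independent modulo squares; `S` is good for `D` if
`E_N(ℚ)` is finite and `Ш(E_N/ℚ)[2] = 0` for the squarefree parts `N` of all the products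
`D ∏_{m ∈ T} m`, `T ⊆ S`.  The fields are `F = ℚ(√m : m ∈ S)` (real) and `F = ℚ(√-7, √m : m ∈ S)` (CM).

* For every `S` exactly the proportion `c ^ (2 ^ #S)`, `c = ∏_{i ≥ 0} (1 - 2^{-(2i+1)}) = 0.4194...`, of
  the `D` has the property that `S` is good for `D`; if `S` is good for `D`, then a positive proportion of
  the primes `l` can be added to `S` (infinite towers of fields).
* If `S` is good for `D`, then for both the fields `F` and for all the threefolds `X` over `F` with the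
  curve `C_D` the group `E_D(F)`, and so `J(F)`, is finite and `L(H³(X), s)` is entire and not zero at its
  centre `s = 2`.  There are such `X` if `5 ∈ S` (for example over `F = ℚ(√5)`) or if `F` contains `√-7`.

So both sides of Beilinson's conjecture are `0` in these cases.  The `L`-function of `X` is given by the
numbers of points: for a place `v` of `F` not dividing `42 κ D ∏ m` the four eigenvalues `α` of the
Frobenius on `H³(X)` are determined by `#X(k) = 1 + q + q² + q³ - ∑ α^r` for all the extensions `k` of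
degree `r` of the residue field, `q = #k`.  The Euler factors at the finitely many other places are left
out; they are finite and not zero at the centre, so the order of vanishing is the same.

`MP_6dc9d1_nt/RealMultiquadraticTowersX49` has `i = 0` over the real fields.  New here: the threefolds, the
CM fields (the twists by `-7 D` over `ℚ`), and the existence of the pencils of quadrics
(`21 = 4² + √5²`, `21 = (√-7 α)² + (√-7 (α - 1))²` with `α = (1 + √-7)/2`).
-/

set_option autoImplicit false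

namespace Pool.Agent.Results.MP_6dc9d1_nt.TwoQuadricThreefoldsX49

open NumberField IsDedekindDomain Filter Topology Matrix
open Pool.Agent.Results.MP_6dc9d1_nt.RealMultiquadraticTowersX49
  (InClass Independent Good num c curve av)

/-- `U` is `S` or `S ∪ {-7}`. -/
def Adjoined (S : Finset ℕ) (U : Finset ℤ) : Prop :=
  U = S.image (fun m : ℕ => (m : ℤ)) ∨ U = insert (-7) (S.image fun m : ℕ => (m : ℤ))

/-- `F = ℚ(√u : u ∈ U)`. -/
def Generated (U : Finset ℤ) (F : Type) [Field F] : Prop :=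
  ∃ r : ℤ → F, (∀ u ∈ U, r u ^ 2 = (u : F)) ∧ ∀ E : Subfield F, (∀ u ∈ U, r u ∈ E) → E = ⊤

section
variable {F : Type} [Field F] [NumberField F]

/-- `X : xᵀ A₀ x = xᵀ A₁ x = 0` is a smooth intersection of two quadrics in `P⁵`, and its curve of genus
`2` is `C_D : y² = 21 D (x² + 1) (16 x⁴ - 31 x² + 16)`. -/
def IsThreefold (D κ : 𝓞 F) (A₀ A₁ : Matrix (Fin 6) (Fin 6) (𝓞 F)) : Prop :=
  A₀.IsSymm ∧ A₁.IsSymm ∧ κ ≠ 0 ∧ ∀ s t : 𝓞 F, (s • A₀ + t • A₁).det =
    -(κ ^ 2 * (21 * D * (s ^ 2 + t ^ 2) * (16 * s ^ 4 - 31 * s ^ 2 * t ^ 2 + 16 * t ^ 4)))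

/-- The common zeros, not all coordinates zero, of the two quadratic forms in the field `k`; the
coefficients are mapped to `k` by `φ`. -/
def solutions (A₀ A₁ : Matrix (Fin 6) (Fin 6) (𝓞 F)) {k : Type} [Field k] (φ : 𝓞 F →+* k) :
    Set (Fin 6 → k) :=
  {x | x ≠ 0 ∧ x ⬝ᵥ A₀.map φ *ᵥ x = 0 ∧ x ⬝ᵥ A₁.map φ *ᵥ x = 0}

/-- `S` is the multiset of the eigenvalues of the Frobenius of the place `v` on `H³(X)`: for every
extension `k` of degree `r` of the residue field the equations of `X` have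
`(#k - 1) (1 + #k + #k² + #k³ - ∑ α^r)` nonzero solutions in `k`. -/
def IsFrobenius (A₀ A₁ : Matrix (Fin 6) (Fin 6) (𝓞 F)) (v : HeightOneSpectrum (𝓞 F))
    (S : Multiset ℂ) : Prop :=
  ∀ (k : Type) [Field k] [Finite k] (φ : 𝓞 F →+* k) (r : ℕ), RingHom.ker φ = v.asIdeal →
    Nat.card k = Ideal.absNorm v.asIdeal ^ r →
    ((solutions A₀ A₁ φ).ncard : ℂ) = ((Nat.card k : ℂ) - 1) * (1 + (Nat.card k : ℂ) +
      (Nat.card k : ℂ) ^ 2 + (Nat.card k : ℂ) ^ 3 - (S.map (fun α => α ^ r)).sum)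

/-- `L` is entire and equal for `Re s > 5/2` to the Euler product of `L(H³(X), s)` over the places `v` of
`F` not dividing `B`.  The dimension of `H³(X)` is `4`, and the eigenvalues of the Frobenius at these places
have the absolute value `N(v) ^ (3/2)`. -/
def IsLFunction (A₀ A₁ : Matrix (Fin 6) (Fin 6) (𝓞 F)) (B : 𝓞 F) (L : ℂ → ℂ) : Prop :=
  Differentiable ℂ L ∧ ∃ S : HeightOneSpectrum (𝓞 F) → Multiset ℂ,
    (∀ v, B ∉ v.asIdeal → IsFrobenius A₀ A₁ v (S v) ∧ (S v).card = 4 ∧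
      ∀ α ∈ S v, ‖α‖ ^ 2 = (Ideal.absNorm v.asIdeal : ℝ) ^ 3) ∧
    ∀ s : ℂ, 5 / 2 < s.re → HasProd (fun v : {v : HeightOneSpectrum (𝓞 F) // B ∉ v.asIdeal} =>
      ((S v.1).map (fun α => (1 - α * (Ideal.absNorm v.1.asIdeal : ℂ) ^ (-s))⁻¹)).prod) (L s)

end

/-- `E_D(F)` is finite, and for all the threefolds `X` over `F` with the curve `C_D` the function
`L(H³(X), s)`, without the factors at the places dividing `42 κ D ∏_{m ∈ S} m`, is entire and not zero at
`s = 2`. -/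
def ThreefoldsRankZero (F : Type) [Field F] [NumberField F] (S : Finset ℕ) (D : ℕ) : Prop :=
  Finite (curve F D).toAffine.Point ∧
  ∀ (κ : 𝓞 F) (A₀ A₁ : Matrix (Fin 6) (Fin 6) (𝓞 F)), IsThreefold (D : 𝓞 F) κ A₀ A₁ →
    ∃ L : ℂ → ℂ, IsLFunction A₀ A₁ (42 * κ * ((D * ∏ m ∈ S, m : ℕ) : 𝓞 F)) L ∧ L 2 ≠ 0

section proof

open Pool.Agent.Helper93.X49 (three49 pencil49 fld exists_fld)
open Pool.Agent.Helper93.Bq (HasL)

lemma sum_two_sq {D : ℕ} (hD : InClass D) : ∃ a b : ℕ, D = a ^ 2 + b ^ 2 := by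
  apply Nat.eq_sq_add_sq_of_isSquare_mod_neg_one
  rw [ZMod.isSquare_neg_one_iff_forall_mem_primeFactors_mod_four_ne_three hD.1]
  intro q hq h3
  have h1 := hD.2 q hq
  omega

lemma pencil_of {R : Type} [CommRing R] {D : ℕ} (hD : InClass D) {P Q : R}
    (h : P ^ 2 + Q ^ 2 = 21) : ∃ A₀ A₁ : Matrix (Fin 6) (Fin 6) R, A₀.IsSymm ∧ A₁.IsSymm ∧
      ∀ s t : R, (s • A₀ + t • A₁).det = -(4 ^ 2 * (21 * (D : R) * (s ^ 2 + t ^ 2) *
        (16 * s ^ 4 - 31 * s ^ 2 * t ^ 2 + 16 * t ^ 4))) := by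
  obtain ⟨a, b, hab⟩ := sum_two_sq hD
  have h1 : (a * P - b * Q) ^ 2 + (b * P + a * Q) ^ 2 = 21 * (D : R) := by
    rw [hab]
    push_cast
    linear_combination ((a : R) ^ 2 + (b : R) ^ 2) * h
  exact pencil49 h1

lemma exists_int {F : Type} [Field F] [NumberField F] {x : F} {u : ℤ} (h : x ^ 2 = (u : F)) :
    ∃ y : 𝓞 F, y ^ 2 = (u : 𝓞 F) := by
  have hint : IsIntegral ℤ x := by
    have h3 : IsIntegral ℤ (x ^ 2) := by
      rw [h]
      have h4 := isIntegral_algebraMap (R := ℤ) (A := F) (x := u)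
      simpa using h4
    exact h3.of_pow (by norm_num)
  obtain ⟨y, hy⟩ : ∃ y : 𝓞 F, (y : F) = x := ⟨⟨x, hint⟩, rfl⟩
  refine ⟨y, ?_⟩
  apply RingOfIntegers.ext
  have e : ((y ^ 2 : 𝓞 F) : F) = (y : F) ^ 2 := rfl
  rw [e, hy, h]
  exact (map_intCast (algebraMap (𝓞 F) F) u).symm

lemma exists_half {F : Type} [Field F] [NumberField F] {x : F} (h : x ^ 2 = ((-7 : ℤ) : F)) :
    ∃ y : 𝓞 F, y ^ 2 = y - 2 := by
  have h1 : ((1 + x) / 2) ^ 2 = (1 + x) / 2 - 2 := by
    push_cast at h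
    linear_combination h / 4
  have hint : IsIntegral ℤ ((1 + x) / 2) := by
    refine ⟨Polynomial.X ^ 2 - Polynomial.X + Polynomial.C 2, ?_, ?_⟩
    · have h2 : (Polynomial.X ^ 2 - Polynomial.X + Polynomial.C 2 : Polynomial ℤ) =
          Polynomial.X ^ 2 + (-Polynomial.X + Polynomial.C 2) := by ring
      rw [h2]
      apply Polynomial.monic_X_pow_add
      compute_degree!
    · simp only [Polynomial.eval₂_add, Polynomial.eval₂_sub, Polynomial.eval₂_pow,
        Polynomial.eval₂_X, Polynomial.eval₂_C]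
      rw [h1]
      simp
  obtain ⟨y, hy⟩ : ∃ y : 𝓞 F, (y : F) = (1 + x) / 2 := ⟨⟨(1 + x) / 2, hint⟩, rfl⟩
  refine ⟨y, ?_⟩
  apply RingOfIntegers.ext
  have e : ((y ^ 2 : 𝓞 F) : F) = (y : F) ^ 2 := rfl
  have e2 : ((y - 2 : 𝓞 F) : F) = (y : F) - 2 :=
    (map_sub (algebraMap (𝓞 F) F) y 2).trans (by rw [map_ofNat])
  rw [e, e2, hy, h1]

lemma finite_of {F : Type} [Field F] [NumberField F] {D : ℕ} (hD : InClass D)
    (h1 : (Pool.Agent.Helper93.Bq.Sol F (-35 * (((1 : ℤ) : F) * (D : F)) ^ 2)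
      (-98 * (((1 : ℤ) : F) * (D : F)) ^ 3)).Finite) : Finite (curve F D).toAffine.Point := by
  rw [Int.cast_one, one_mul] at h1
  have hDF : (D : F) ≠ 0 := Nat.cast_ne_zero.2 hD.1.ne_zero
  have h3 : curve F D = Pool.Agent.Helper93.Bq.crv F (-35 * (D : F) ^ 2) (-98 * (D : F) ^ 3) := rfl
  rw [h3, Pool.Agent.Helper93.Bq.finite_iff two_ne_zero]
  · exact h1
  · have e1 : 4 * (-35 * (D : F) ^ 2) ^ 3 + 27 * (-98 * (D : F) ^ 3) ^ 2 =
        87808 * (D : F) ^ 6 := by ring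
    rw [e1]
    exact mul_ne_zero (by norm_num) (pow_ne_zero _ hDF)

lemma threefolds_of {F : Type} [Field F] [NumberField F] {S : Finset ℕ}
    (hS : ∀ m ∈ S, InClass m) {D : ℕ} (hD : InClass D) (hf : Finite (curve F D).toAffine.Point)
    (h2 : HasL (-35 * (((-7 : ℤ) : 𝓞 F) * (D : 𝓞 F)) ^ 2)
      (-98 * (((-7 : ℤ) : 𝓞 F) * (D : 𝓞 F)) ^ 3) ((14 * D * ∏ m ∈ S, m : ℕ) : 𝓞 F)) :
    ThreefoldsRankZero F S D := by
  refine ⟨hf, ?_⟩
  rintro κ A₀ A₁ ⟨k0, k1, k2, k3⟩
  have h7 : ((-7 : ℤ) : 𝓞 F) = -7 := by norm_num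
  rw [h7] at h2
  have hP : ((D * ∏ m ∈ S, m : ℕ) : 𝓞 F) ≠ 0 := by
    apply Nat.cast_ne_zero.2
    exact Pool.Agent.Helper93.X49.prod_ne hS hD (Finset.Subset.refl S)
  refine three49 h2 k0 k1 k3 (mul_ne_zero (mul_ne_zero (by norm_num) k2) hP) ?_ ?_ ?_ ?_ ?_
  · refine ⟨3 * κ, ?_⟩
    push_cast
    ring
  · exact ⟨κ * ((D * ∏ m ∈ S, m : ℕ) : 𝓞 F), by ring⟩
  · exact ⟨42 * ((D * ∏ m ∈ S, m : ℕ) : 𝓞 F), by ring⟩
  · refine ⟨42 * κ * ((∏ m ∈ S, m : ℕ) : 𝓞 F), ?_⟩
    push_cast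
    ring
  · refine ⟨7 * ((D * ∏ m ∈ S, m : ℕ) : 𝓞 F), ?_⟩
    push_cast
    ring

end proof

/-- **Main theorem.**  (1) For each finite independent set `S` of numbers of the class exactly the
proportion `c ^ (2 ^ #S)` of the numbers `D` of the class has the property that `S` is good for `D`,
`c = 0.4194...`; there are at least `a X / √(log X)`, `a > 0`, such `D ≤ X`.  (2) Let `S` be good for
`D`.  Then at least `a π(X)`, `a > 0`, of the primes `l ≤ X`, `l ≡ 1` modulo `4`, which divide neither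
`D` nor an element of `S`, have the property that `S ∪ {l}` is good for `D`; and for all fields
`F = ℚ(√u : u ∈ U)`, where `U` is `S` or `S ∪ {-7}` (they exist and have degree `2 ^ #U` over `ℚ`), `E_D(F)`
is finite and `L(H³(X), s)` is not zero at `s = 2` for all the threefolds `X` over `F` with the curve `C_D`.
If `5 ∈ U` or `-7 ∈ U`, there are such threefolds. -/
theorem result :
    (∀ S : Finset ℕ, (∀ m ∈ S, InClass m) → Independent S →
      Tendsto (fun X : ℕ => (num (Good S) X : ℝ) / (num (fun _ => True) X : ℝ)) atTop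
        (𝓝 (c ^ (2 ^ S.card))) ∧
      ∃ (a : ℝ) (X₀ : ℕ), 0 < a ∧ ∀ X : ℕ, X₀ ≤ X →
        a * X / Real.sqrt (Real.log X) ≤ (num (Good S) X : ℝ)) ∧
    0.4194 < c ∧ c < 0.4195 ∧
    ∀ (S : Finset ℕ) (D : ℕ), (∀ m ∈ S, InClass m) → Independent S → InClass D → Good S D →
      (∃ a : ℝ, 0 < a ∧ ∀ᶠ X : ℕ in atTop, a * (Nat.primeCounting X : ℝ) ≤
        (Set.ncard {l : ℕ | l.Prime ∧ l % 4 = 1 ∧ (∀ m ∈ insert D S, ¬ l ∣ m) ∧
          Independent (insert l S) ∧ Good (insert l S) D ∧ l ≤ X} : ℝ)) ∧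
      ∀ U : Finset ℤ, Adjoined S U →
        (∃ (F : Type) (_ : Field F) (_ : NumberField F), Generated U F) ∧
        ∀ (F : Type) [Field F] [NumberField F], Generated U F →
          Module.finrank ℚ F = 2 ^ U.card ∧ ThreefoldsRankZero F S D ∧
          (5 ∈ U ∨ -7 ∈ U → ∃ (κ : 𝓞 F) (A₀ A₁ : Matrix (Fin 6) (Fin 6) (𝓞 F)),
            IsThreefold (D : 𝓞 F) κ A₀ A₁) := by
  obtain ⟨h1, h2, h3, h4⟩ := RealMultiquadraticTowersX49.result
  refine ⟨h1, h2, h3, fun S D hS hI hD hG => ?_⟩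
  obtain ⟨h5, -, -⟩ := h4 S D hS hI hD hG
  refine ⟨h5, fun U hU => ⟨?_, fun F _ _ hF => ?_⟩⟩
  · obtain ⟨F, _, _, r, hr⟩ := Pool.Agent.Helper93.X49.exists_fld U
    exact ⟨F, inferInstance, inferInstance, r, hr⟩
  · obtain ⟨r, hr, hgen⟩ := hF
    obtain ⟨k1, k2⟩ := Pool.Agent.Helper93.X49.fld hS hD hI
      (RealMultiquadraticTowersX49.good_iff.1 hG) hU F r hr hgen
    obtain ⟨k3, -⟩ := k2 1 (Or.inl rfl)
    obtain ⟨-, k5⟩ := k2 (-7) (Or.inr rfl)
    refine ⟨k1, threefolds_of hS hD (finite_of hD k3) k5, ?_⟩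
    rintro (h | h)
    · obtain ⟨y, hy⟩ := exists_int (hr 5 h)
      obtain ⟨A₀, A₁, j1, j2, j3⟩ := pencil_of hD (P := (4 : 𝓞 F)) (Q := y) (by
        rw [hy]
        norm_num)
      exact ⟨4, A₀, A₁, j1, j2, by norm_num, j3⟩
    · obtain ⟨y, hy⟩ := exists_half (hr (-7) h)
      obtain ⟨A₀, A₁, j1, j2, j3⟩ := pencil_of hD (P := (2 * y - 1) * y)
        (Q := (2 * y - 1) * (y - 1)) (by
          linear_combination (8 * (y ^ 2 - y + 2) - 26) * hy)
      exact ⟨4, A₀, A₁, j1, j2, by norm_num, j3⟩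

end Pool.Agent.Results.MP_6dc9d1_nt.TwoQuadricThreefoldsX49
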